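import Pool.Agent.U642.CB.Main
import Pool.Agent.U642.WP.Mono

set_option autoImplicit false

/-!
# Convex bodies contain integer points in record prime gaps

Shanks' conjecture is about the first occurrence of the gaps between primes.  Let
`f(X) = log X (log₂ X)² log₄ X / (log₃ X)²` be the order of the largest prime gaps below `X` that
are known to occur (starting files).

Let `K` be a bounded convex set in `ℝ ^ n` with `K = -K`, `c` any point of `ℝ ^ n`.  The only
hypothesis is that the last of the successive minima of `K` is at most `X ^ (-δ)`: there are `n`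
linearly independent integer vectors `v_i` with `X ^ δ v_i ∈ K`.  Then a proportion of at least
`X ^ (-δ)` of all the integer points `x` of the body `c + K` (and at least one) has the property
that all the coordinates `x_j`, and all the products `x_1 ^ (e_1) ⋯ x_n ^ (e_n)` with coprime
exponents `e_j ≤ E`, are in the middle of prime gaps of the record size `κ f(X)`.

The body may be very thin in irrational directions: for example for every irrational `α` it applies
to the fractions `a / b`, `0 < b ≤ B`, with `|α - a / b| ≤ B ^ (-2 + ε)`, if `B` is the denominator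
of a convergent of `α` (two consecutive convergents give `v_1, v_2`), so `a` and `b` (and `a b`,
`a ² b`, …) are in record gaps for infinitely many fractions with `|α - a / b| ≤ b ^ (-2 + ε)`.
Starting results treat boxes and their images under polynomials, and one coordinate `n` with `α n`
close to `β` modulo one (`MP_7b323f_nt.WellApproximatedGapCentres`).

Method.  By rounding to the lattice spanned by `q v_1, …, q v_n` any two residue classes modulo `q`
have comparable numbers of points in `c + t K` and `c + (t + n q X ^ (-δ)) K`.  A doubling argument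
(the midpoints with an integer point near `c`) and the pigeonhole principle give a `t` in
`[3 / 4, 1]` for which the points of `c + t K` are equidistributed with a power saving in the
classes of all moduli up to a small power of `X`; no volumes are needed.  The covering sieve for
families of polynomials at well distributed families of integer vectors (helper837, helper542; after
helper256 and helper378) then gives the record gaps.
-/

namespace Pool.Agent.Results.MP_926cc3_nt.ConvexBodies

open Filter
open scoped Pointwise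

/-- The record scale `f(x) = log x (log₂ x)² log₄ x / (log₃ x)²` (iterated natural logarithms). -/
noncomputable def f (x : ℝ) : ℝ :=
  Real.log x * (Real.log (Real.log x)) ^ 2 * Real.log (Real.log (Real.log (Real.log x))) /
    (Real.log (Real.log (Real.log x))) ^ 2

/-- The real vector of an integer vector. -/
def real {n : ℕ} (x : Fin n → ℤ) : Fin n → ℝ := fun j => (x j : ℝ)

/-- The integer points `x` of `c + K` such that for all coprime exponents `e j ≤ E` all the
integers at distance at most `κ f(X)` from `∏ (x j) ^ (e j)` have a prime factor `l ≤ X ^ δ`. -/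
def Points {n : ℕ} (E : ℕ) (κ δ X : ℝ) (K : Set (Fin n → ℝ)) (c : Fin n → ℝ) :
    Set (Fin n → ℤ) :=
  {x | real x - c ∈ K ∧ ∀ e : Fin n → ℕ, (∀ j, e j ≤ E) → Finset.univ.gcd e = 1 →
    ∀ m : ℤ, |(m : ℝ) - ∏ j, (x j : ℝ) ^ e j| ≤ κ * f X →
      ∃ l : ℕ, l.Prime ∧ (l : ℝ) ≤ X ^ δ ∧ (l : ℤ) ∣ m}

/-- **Convex bodies whose last successive minimum is at most `X ^ (-δ)` contain integer points in
record prime gaps**, at least the proportion `X ^ (-δ)` of all their integer points. -/
theorem result (n E : ℕ) (hn : 1 ≤ n) (δ : ℝ) (hδ : 0 < δ) (hδ1 : δ ≤ 1) :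
    ∃ κ : ℝ, 0 < κ ∧ ∃ X₀ : ℝ, ∀ X : ℝ, X₀ ≤ X →
      ∀ (K : Set (Fin n → ℝ)) (c : Fin n → ℝ) (v : Fin n → Fin n → ℤ),
      Convex ℝ K → (∀ x ∈ K, -x ∈ K) → Bornology.IsBounded K →
      LinearIndependent ℝ (fun i => real (v i)) → (∀ i, X ^ δ • real (v i) ∈ K) →
      (Points E κ δ X K c).Nonempty ∧
      X ^ (-δ) * (({x : Fin n → ℤ | real x - c ∈ K}).ncard : ℝ) ≤
        ((Points E κ δ X K c).ncard : ℝ) := by
  classical
  obtain ⟨h1, h2⟩ := Pool.Agent.U642.WP.mono_balanced n
    (fun (e : {e : Fin n → Fin (E + 1) // Finset.univ.gcd (fun j => (e j : ℕ)) = 1})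
      (j : Fin n) => (e.1 j : ℕ)) (by
      intro e e' h
      apply Subtype.ext
      funext j
      exact Fin.ext (congrFun h j)) (fun e => e.2)
  obtain ⟨κ, hκ, h⟩ := Pool.Agent.U642.CB.convex_main n hn _
    (Pool.Agent.N542.PT.crit_balanced _ _ h2 h1) δ hδ hδ1
  obtain ⟨X₀, hX₀⟩ := eventually_atTop.mp (h.and ((Pool.Agent.W147.PS.ev_pow (-δ) 0 n
    (by linarith)).and (eventually_gt_atTop (1 : ℝ))))
  refine ⟨κ, hκ, X₀, ?_⟩
  intro X hX K c v hK hs hb hli hv
  obtain ⟨h3, h4, hX1⟩ := hX₀ X hX
  obtain ⟨S, hS⟩ := Pool.Agent.U642.CB.exists_S K c hb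
  have h5 := h3 K c hK hs v hv hli S hS
  have hX0 : 0 < X := by linarith
  have hset : {x : Fin n → ℤ | real x - c ∈ K} = (S 1 : Set (Fin n → ℤ)) := by
    ext x
    rw [Finset.mem_coe, hS 1 zero_le_one (by norm_num), one_smul]
    rfl
  have hfin : (Points E κ δ X K c).Finite := by
    apply Set.Finite.subset (S 1).finite_toSet
    rw [← hset]
    exact fun x hx => hx.1
  have hcount : X ^ (-δ) * (({x : Fin n → ℤ | real x - c ∈ K}).ncard : ℝ) ≤
      ((Points E κ δ X K c).ncard : ℝ) := by
    rw [hset, Set.ncard_coe_finset]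
    refine h5.trans ?_
    rw [Nat.cast_le, ← Set.ncard_coe_finset]
    apply Set.ncard_le_ncard _ hfin
    intro x hx
    rw [Finset.mem_coe, Finset.mem_filter] at hx
    obtain ⟨h6, h7⟩ := hx
    refine ⟨?_, ?_⟩
    · have : x ∈ (S 1 : Set (Fin n → ℤ)) := h6
      rw [← hset] at this
      exact this
    · intro e he hgcd m hm
      have h8 := h7 ⟨fun j => ⟨e j, Nat.lt_succ_of_le (he j)⟩, hgcd⟩ m
      simp only [map_prod, map_pow, MvPolynomial.eval_X] at h8
      apply h8
      push_cast
      exact hm
  refine ⟨?_, hcount⟩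
  -- there is an integer point
  have h0 : (0 : Fin n → ℝ) ∈ K := by
    have h1 := hv ⟨0, hn⟩
    have h3 := hK h1 (hs _ h1) (show (0 : ℝ) ≤ 1 / 2 by norm_num)
      (show (0 : ℝ) ≤ 1 / 2 by norm_num) (by norm_num)
    rwa [smul_neg, add_neg_cancel] at h3
  have hlamX : X ^ (-δ) * X ^ δ = 1 := by
    rw [← Real.rpow_add hX0]
    simp
  obtain ⟨u, hu⟩ := Pool.Agent.U642.CB.round hK h0 v (X ^ (-δ)) (by positivity) (by
    intro i
    have h1 := Set.smul_mem_smul_set (a := X ^ (-δ)) (hv i)
    rwa [smul_smul, hlamX, one_smul] at h1) hli c 1 le_rfl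
  rw [Nat.cast_one, one_smul, one_mul] at hu
  have hmem : u ∈ S 1 := by
    rw [hS 1 zero_le_one (by norm_num)]
    have h6 := Pool.Agent.U642.CB.neg_mem' hs hu
    rw [neg_sub] at h6
    rw [Real.rpow_zero] at h4
    exact Pool.Agent.U642.CB.mono_smul hK h0 (by positivity) h4 h6
  by_contra hempty
  rw [Set.not_nonempty_iff_eq_empty] at hempty
  rw [hempty, Set.ncard_empty, hset, Set.ncard_coe_finset] at hcount
  have h6 : (1 : ℝ) ≤ (S 1).card := by
    exact_mod_cast Finset.card_pos.2 ⟨u, hmem⟩
  have h7 : 0 < X ^ (-δ) := Real.rpow_pos_of_pos hX0 _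
  push_cast at hcount
  nlinarith

end Pool.Agent.Results.MP_926cc3_nt.ConvexBodies
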