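import Mathlib
import Pool.Agent.U215.Sk.Prob

set_option autoImplicit false

/-!
# Shanks' conjecture in every sequential random model of the primes

A random set `S` is built step by step, with arbitrary dependence; the conditional probability of `n + 1`,
given the first `n` steps, is asymptotic to `∏_{p ≤ T} (1 - 1/p)⁻¹ / log n`, `T = T(n + 1)`, if `n + 1` has no
prime factor up to `T(n + 1)`, and it is `0` otherwise (Cramér's model: `T = 1`). Let `p(g)` be the first
element of `S` which follows a run of at least `g` integers between two elements of `S`.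

* For all nondecreasing `T = n ^ o(1)`: almost surely `limsup log p(g) / √g ≤ 1`.
* For `T = (log n) ^ o(1)`: almost surely `log p(g) ~ √g`, Shanks' conjecture for `S`.
* For `T = (log n) ^ (1 - o(1))`: almost surely `limsup log p(g) / √g ≤ √(exp(γ) / 2) < 1`, so the statement
  of Shanks' conjecture is false for `S`.

Proof: the law of the empty windows in all dyadic blocks (library `U462.Gap`), which gives empty windows
of length `c log² n` in every large block, and none of larger length.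
-/

open MeasureTheory Filter Topology

namespace Pool.Agent.Results.MP_926cc3_nt.ShanksInRandomModels

/-- the elements `q` of `S` such that the preceding element `q'` of `S` satisfies `q - q' - 1 ≥ g` -/
def After (S : Set ℕ) (g : ℕ) : Set ℕ :=
  {q | q ∈ S ∧ ∃ q' ∈ S, q' + g < q ∧ ∀ m, q' < m → m < q → m ∉ S}

/-- the least of them: the first element of `S` that follows a run of at least `g` integers between two
elements of `S` (`0` if there is none) -/
noncomputable def first (S : Set ℕ) (g : ℕ) : ℕ := sInf (After S g)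

/-- the statement Q1 for the set `S` in the place of the set of the primes -/
def Shanks (S : Set ℕ) : Prop :=
  (∀ g, (After S g).Nonempty) ∧ Tendsto (fun g : ℕ => Real.log (first S g) / √g) atTop (𝓝 1)

/-- A sequential model with profile `a`: the set of the `n` with `ω ∈ A n` is adapted to the filtration, and
almost surely the conditional probability of `n + 1`, given the first `n` steps, is asymptotic to
`a (n + 1)` (in particular it is `0` for large `n` if `a (n + 1) = 0`). -/
structure IsModel {Ω : Type} {m0 : MeasurableSpace Ω} (μ : Measure Ω) (ℱ : Filtration ℕ m0)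
    (A : ℕ → Set Ω) (a : ℕ → ℝ) : Prop where
  adapted : ∀ n, MeasurableSet[ℱ n] (A n)
  law : ∀ᵐ ω ∂μ, ∀ ε : ℝ, 0 < ε → ∀ᶠ n : ℕ in atTop,
    |(μ[(A (n + 1)).indicator (fun _ => (1 : ℝ)) | ℱ n]) ω - a (n + 1)| ≤ ε * a (n + 1)

open Classical in
/-- the profile of the model with sieve limit `T`: `∏_{p ≤ T(n)} (1 - 1/p)⁻¹ / log n` if `n` has no prime
factor `p ≤ T(n)`, and `0` otherwise -/
noncomputable def sieveProfile (T : ℕ → ℕ) (n : ℕ) : ℝ :=
  (if ∀ p, p.Prime → p ≤ T n → ¬ p ∣ n then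
    ∏ p ∈ (Finset.Icc 1 (T n)).filter Nat.Prime, (1 - 1 / (p : ℝ))⁻¹ else 0) / Real.log n

theorem toModel {Ω : Type} {m0 : MeasurableSpace Ω} {μ : Measure Ω} {ℱ : Filtration ℕ m0}
    {A : ℕ → Set Ω} {a : ℕ → ℝ} (h : IsModel μ ℱ A a) : Pool.Agent.U462.Gap.Model μ ℱ A a :=
  ⟨h.adapted, h.law⟩

lemma after_anti (S : Set ℕ) {g g' : ℕ} (h : g ≤ g') : After S g' ⊆ After S g := by
  rintro q ⟨h1, q', h2, h3, h4⟩
  exact ⟨h1, q', h2, by omega, h4⟩

lemma nonempty_all (S : Set ℕ) (h : ∀ᶠ g : ℕ in atTop, (After S g).Nonempty) (g : ℕ) :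
    (After S g).Nonempty := by
  obtain ⟨g', h1, h2⟩ := (h.and (eventually_ge_atTop g)).exists
  exact h1.mono (after_anti S h2)

/-- **(1)** Let `T` be nondecreasing, smaller than every power of `n`, and consider any model with the
profile `sieveProfile T`. (a) Almost surely `p(g)` exists for all `g` and `limsup log p(g) / √g ≤ 1`. (b) If
`T` is smaller than every power of `log n`, then almost surely Shanks' conjecture holds. (c) If `T` is larger
than `(log n) ^ θ` for every `θ < 1`, and smaller than `ε log n` for every `ε > 0`, then almost surely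
`limsup log p(g) / √g ≤ √(exp γ / 2)`, and Shanks' conjecture fails. **(2)** `√(exp γ / 2) < 1`.
**(3)** Independent events with probabilities asymptotic to `a n` form a model with the profile `a`. -/
theorem result :
    (∀ (Ω : Type) (m0 : MeasurableSpace Ω) (μ : Measure Ω) (_ : IsProbabilityMeasure μ)
      (ℱ : Filtration ℕ m0) (A : ℕ → Set Ω) (T : ℕ → ℕ), Monotone T →
      (∀ ε : ℝ, 0 < ε → ∀ᶠ n : ℕ in atTop, (T n : ℝ) ≤ (n : ℝ) ^ ε) →
      IsModel μ ℱ A (sieveProfile T) →
      (∀ᵐ ω ∂μ, (∀ g, (After {n | ω ∈ A n} g).Nonempty) ∧ ∀ ε : ℝ, 0 < ε →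
        ∀ᶠ g : ℕ in atTop, Real.log (first {n | ω ∈ A n} g) / √g ≤ 1 + ε) ∧
      ((∀ θ : ℝ, 0 < θ → ∀ᶠ n : ℕ in atTop, (T n : ℝ) ≤ (Real.log n) ^ θ) →
        ∀ᵐ ω ∂μ, Shanks {n | ω ∈ A n}) ∧
      ((∀ θ : ℝ, θ < 1 → ∀ᶠ n : ℕ in atTop, (Real.log n) ^ θ ≤ T n) →
        (∀ ε : ℝ, 0 < ε → ∀ᶠ n : ℕ in atTop, (T n : ℝ) ≤ ε * Real.log n) →
        ∀ᵐ ω ∂μ, ¬ Shanks {n | ω ∈ A n} ∧ ∀ ε : ℝ, 0 < ε → ∀ᶠ g : ℕ in atTop,
          Real.log (first {n | ω ∈ A n} g) / √g ≤
            √(Real.exp Real.eulerMascheroniConstant / 2) + ε)) ∧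
    √(Real.exp Real.eulerMascheroniConstant / 2) < 1 ∧
    (∀ (Ω : Type) (m0 : MeasurableSpace Ω) (μ : Measure Ω) (_ : IsProbabilityMeasure μ)
      (A : ℕ → Set Ω) (hm : ∀ n, MeasurableSet (A n)) (a : ℕ → ℝ), ProbabilityTheory.iIndepSet A μ →
      (∀ ε : ℝ, 0 < ε → ∀ᶠ n : ℕ in atTop, |μ.real (A n) - a n| ≤ ε * a n) →
      IsModel μ (filtrationOfSet hm) A a) := by
  refine ⟨?_, Pool.Agent.U215.Sk.const_lt, ?_⟩
  · intro Ω m0 μ _ ℱ A T hT hTs hA
    have hM : Pool.Agent.U462.Gap.Model μ ℱ A (Pool.Agent.U462.Gap.aT T) := toModel hA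
    have hgen := Pool.Agent.U215.Sk.general hM hT hTs
    refine ⟨?_, fun hTl => ?_, fun h1 h2 => ?_⟩
    · filter_upwards [hgen] with ω hω
      exact ⟨nonempty_all _ ((hω 1 one_pos).mono fun g hg => hg.1), fun ε hε => (hω ε hε).mono fun g hg => hg.2⟩
    · filter_upwards [hgen, Pool.Agent.U215.Sk.small hM hT hTl] with ω hω hω'
      exact ⟨nonempty_all _ ((hω 1 one_pos).mono fun g hg => hg.1), hω'⟩
    · filter_upwards [Pool.Agent.U215.Sk.near hM hT ⟨h1, h2⟩] with ω hω
      refine ⟨?_, fun ε hε => (hω ε hε).mono fun g hg => hg.2⟩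
      rintro ⟨-, h3⟩
      obtain ⟨s, hs⟩ : ∃ s, s = √(Real.exp Real.eulerMascheroniConstant / 2) := ⟨_, rfl⟩
      have hs1 : s < 1 := by rw [hs]; exact Pool.Agent.U215.Sk.const_lt
      have h4 : ∀ᶠ g : ℕ in atTop, (s + 1) / 2 < Real.log (first {n | ω ∈ A n} g) / √g :=
        h3.eventually (lt_mem_nhds (by linarith))
      obtain ⟨g, h5, h6⟩ := (h4.and (hω ((1 - s) / 2) (by linarith))).exists
      have h7 : Real.log (first {n | ω ∈ A n} g) / √g ≤ s + (1 - s) / 2 := by
        rw [hs]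
        rw [hs] at h6
        exact h6.2
      linarith
  · intro Ω m0 μ _ A hm a hi hp
    have h := Pool.Agent.U462.Gap.indep_model hm hi hp
    exact ⟨h.adapted, h.law⟩

end Pool.Agent.Results.MP_926cc3_nt.ShanksInRandomModels
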