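import Pool.Agent.U642.BG.ExpoAP
import Pool.Agent.U642.WP.Mono

set_option autoImplicit false

/-!
# Record prime gaps at integers and their discrete exponentials to bases of small order

Write `f(x) = log x (log₂ x)² log₄ x / (log₃ x)²` for the record size of the prime-free intervals (starting
files).  Let `g_1, …, g_r` be residues modulo the large prime `p` of multiplicative orders at least
`p ^ ε`, where `ε > 0` is ARBITRARILY SMALL, `x_j ≠ 0`, `w_j` residues, and let the exponents `n_j` run
through intervals of length at least `p ^ ε`.  The theorem: for at least `p ^ (-ε) ∏ N_j` of the exponent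
vectors the residues `x_j g_j ^ n_j + w_j` have representatives `y_j` in prescribed intervals of length
`p ^ (1 - δ)` such that for all coprime exponents `≤ E` every integer within `κ f(p)` of

  `∏_j n_j ^ d_j y_j ^ e_j`

has a prime factor `≤ p ^ ε`.  For `r = 1`: the exponent `n`, its discrete exponential `g ^ n mod p` and
their product `n (g ^ n mod p)` are in the middle of record prime gaps, and this happens in every
interval of `p ^ ε` exponents.

The starting library has the pairs `(n, g ^ n)` for orders `≥ p ^ (1 / 2 + δ)` and intervals of exponents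
of such length (`MP_69be96_nt.DiscreteExponentials`), and cosets of subgroups of order `≥ p ^ (3 / 8 + ε)`
(`MP_69be96_nt.ProductsAndPowersModP`); `3 / 8` is the limit of the Stepanov method used there.

Method.  Shifting the exponents by sums of `k` variables turns the sums `∑ e(t x g ^ n / p)` into
multilinear sums over the sets `{g ^ m : m < p ^ (ε / 4)}`, for which the theorem of Bourgain, Glibichuk
and Konyagin is proved in `U642.BG.Ml2` (from the flattening theorem `Y881.SP.flat` of the library).  The
residue classes of the exponents and of the representatives modulo small integers are then jointly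
equidistributed (`U642.BG.pair_box`), and the covering sieve for families of polynomials at well
distributed families of integer vectors (helper837, helper542; after helper256 and helper378)
gives the record gaps.
-/

namespace Pool.Agent.Results.MP_926cc3_nt.SmallOrderExponentials

open Finset Filter

/-- The record scale `f(x) = log x (log₂ x)² log₄ x / (log₃ x)²` (iterated natural logarithms). -/
noncomputable def f (x : ℝ) : ℝ :=
  Real.log x * (Real.log (Real.log x)) ^ 2 * Real.log (Real.log (Real.log (Real.log x))) /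
    (Real.log (Real.log (Real.log x))) ^ 2

/-- **Record prime gaps at integers and their discrete exponentials to bases of small order.** -/
theorem result (r E : ℕ) (ε : ℝ) (hε : 0 < ε) (hε1 : ε ≤ 1) :
    ∃ κ : ℝ, 0 < κ ∧ ∃ δ : ℝ, 0 < δ ∧ ∃ p₀ : ℕ, ∀ p : ℕ, p.Prime → p₀ ≤ p →
      ∀ (g x w : Fin r → ZMod p), (∀ j, (p : ℝ) ^ ε ≤ orderOf (g j)) → (∀ j, x j ≠ 0) →
      ∀ (a N : Fin r → ℕ), (∀ j, (p : ℝ) ^ ε ≤ N j) →
      ∀ (M : Fin r → ℤ) (L : ℕ), (p : ℝ) ^ (1 - δ) ≤ L → L ≤ p →
      ∃ B ⊆ Fintype.piFinset (fun j => Ico (a j) (a j + N j)),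
        (p : ℝ) ^ (-ε) * ∏ j, (N j : ℝ) ≤ B.card ∧
        ∀ n ∈ B, ∃ y : Fin r → ℤ,
          (∀ j, M j < y j ∧ y j ≤ M j + L ∧ (y j : ZMod p) = x j * g j ^ n j + w j) ∧
          ∀ d e : Fin r → ℕ, (∀ j, d j ≤ E ∧ e j ≤ E) →
            Nat.gcd (Finset.univ.gcd d) (Finset.univ.gcd e) = 1 →
            ∀ t : ℤ, |(t : ℝ) - (∏ j, (n j : ℝ) ^ d j) * ∏ j, (y j : ℝ) ^ e j| ≤ κ * f p →
              ∃ l : ℕ, l.Prime ∧ (l : ℝ) ≤ (p : ℝ) ^ ε ∧ (l : ℤ) ∣ t := by
  classical
  obtain ⟨h1, h2⟩ := Pool.Agent.U642.WP.mono_balanced (r + r)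
    (fun (e : {e : Fin (r + r) → Fin (E + 1) // Finset.univ.gcd (fun j => (e j : ℕ)) = 1})
      (j : Fin (r + r)) => (e.1 j : ℕ)) (by
      intro e e' h
      apply Subtype.ext
      funext j
      exact Fin.ext (congrFun h j)) (fun e => e.2)
  obtain ⟨c, hc, hcε, p₁, hexp⟩ := Pool.Agent.U642.BG.expo_pairs ε hε hε1 r
  obtain ⟨κ, hκ, h⟩ := Pool.Agent.U642.BG.pair_crit r r _
    (Pool.Agent.N542.PT.crit_balanced _ _ h2 h1) c hc (hcε.trans hε1)
  obtain ⟨Z₀, hZ₀⟩ := eventually_atTop.1 (h.and (eventually_ge_atTop (1 : ℝ)))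
  obtain ⟨p₂, hp₂⟩ := exists_nat_ge Z₀
  refine ⟨κ, hκ, c / (8 * (r + 1)), by positivity, max p₁ p₂, ?_⟩
  intro p hp hpp g x w hg hx a N hN M L hL1 hL2
  have : Fact p.Prime := ⟨hp⟩
  obtain ⟨hcr, hp1⟩ := hZ₀ p (hp₂.trans (by exact_mod_cast (le_max_right _ _).trans hpp))
  have hcard : ((Fintype.piFinset (fun j => Ico (a j) (a j + N j))).card : ℝ) =
      ∏ j, (N j : ℝ) := by
    rw [Fintype.card_piFinset]
    push_cast
    refine prod_congr rfl fun j _ => ?_
    rw [Nat.card_Ico]
    congr 1
    omega
  have hmain := hcr p rfl (Fin r → ℕ) (Fintype.piFinset (fun j => Ico (a j) (a j + N j)))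
    (fun n j => ((n j : ℕ) : ℤ)) (fun n j => x j * g j ^ n j + w j)
    (hexp p ((le_max_left _ _).trans hpp) g x w hg hx a N hN _ rfl) M L hL1 hL2
  refine ⟨_, filter_subset _ _, le_trans ?_ hmain, ?_⟩
  · rw [hcard, mul_comm]
    apply mul_le_mul_of_nonneg_left _ (prod_nonneg fun j _ => Nat.cast_nonneg _)
    exact Real.rpow_le_rpow_of_exponent_le hp1 (neg_le_neg hcε)
  · intro n hn
    rw [mem_filter] at hn
    obtain ⟨-, hn1, hn2⟩ := hn
    refine ⟨fun j => Pool.Agent.U642.BG.rep (M j) (x j * g j ^ n j + w j), fun j =>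
      ⟨Pool.Agent.U642.BG.rep_gt _ _, hn1 j, Pool.Agent.U642.BG.rep_cast _ _⟩, ?_⟩
    intro d e hde hgcd t ht
    have hle : ∀ j, Fin.append d e j < E + 1 := by
      intro j
      refine Fin.addCases (fun j => ?_) (fun j => ?_) j
      · rw [Fin.append_left]; exact Nat.lt_succ_of_le (hde j).1
      · rw [Fin.append_right]; exact Nat.lt_succ_of_le (hde j).2
    have hg1 : Finset.univ.gcd (fun j : Fin (r + r) => Fin.append d e j) = 1 := by
      have h3 : Finset.univ.gcd (fun j : Fin (r + r) => Fin.append d e j) ∣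
          Nat.gcd (Finset.univ.gcd d) (Finset.univ.gcd e) := by
        apply Nat.dvd_gcd
        · apply Finset.dvd_gcd
          intro j _
          have := Finset.gcd_dvd (f := fun j : Fin (r + r) => Fin.append d e j)
            (mem_univ (Fin.castAdd r j))
          rwa [Fin.append_left] at this
        · apply Finset.dvd_gcd
          intro j _
          have := Finset.gcd_dvd (f := fun j : Fin (r + r) => Fin.append d e j)
            (mem_univ (Fin.natAdd r j))
          rwa [Fin.append_right] at this
      rw [hgcd] at h3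
      exact Nat.dvd_one.1 h3
    have h5 := hn2 ⟨fun j => ⟨Fin.append d e j, hle j⟩, hg1⟩ t
    simp only [Fin.prod_univ_add, map_mul, map_prod, map_pow, MvPolynomial.eval_X, Fin.append_left,
      Fin.append_right] at h5
    obtain ⟨l, hl, hl1, hl2⟩ := h5 (by
      push_cast
      exact ht)
    exact ⟨l, hl, hl1.trans (Real.rpow_le_rpow_of_exponent_le hp1 hcε), hl2⟩

end Pool.Agent.Results.MP_926cc3_nt.SmallOrderExponentials
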