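import Pool.Agent.U602.ZK.Fam

set_option autoImplicit false

/-! # Record prime gaps around smooth functions of numbers with given Zeckendorf digits

Every natural number `n` is in exactly one way a sum of Fibonacci numbers `F_i`, `i ∈ I(n)`, with
`I(n) ⊂ {2, 3, …}` without consecutive elements (Zeckendorf; in Mathlib `I(n)` is the list
`Nat.zeckendorf n`). Let `G` be a finite abelian group, `v : ℕ → G`, and let `s(n)` be the sum of the
`v i` over `i ∈ I(n)`. Suppose that for some `w` and for all `k` the elements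
`v (i + 2) - v (i + 1) - v i`, `k ≤ i < k + w`, generate `G`. (Example: `G = ℤ / m`, `v i = 1` for all
`i`; then `s(n)` is the number of summands modulo `m`.) Let `f₁, …, f_r` be real functions, twice
differentiable near infinity, with `|f_j''(t)| = t ^ (c_j - 2 + o(1))` for distinct numbers
`1 ≤ c_j < 2` and with `f_j(t) ≥ t ^ τ` for some `τ > 0`; for instance `f_j(t) = α_j t ^ (c_j)` with
`α_j > 0` and `1 < c_j < 2`, or `t log t`.

For every `ε > 0` there is `κ > 0` such that for all large `X` and all `g ∈ G` there are at least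
`X ^ (1 - ε)` integers `n ≤ X` with `s(n) = g` such that no prime lies within
`κ log X (log₂ X)² log₄ X / (log₃ X)²` of any of the numbers `f₁(n), …, f_r(n)`.

Proof. Every interval of length `3 F_K` contains a block `[N, N + F_K)` in which
`s(N + m) = s(N) + s(m)`. In a block of length `X ^ ε₁` the combinations `∑ h_j f_j(n) / q` are linear
up to a negative power of `X`. The sums of `χ(s(m)) e(θ m)` over `m < F_K`, `χ` a nontrivial
character, save a power uniformly in `θ` (recursion `A_{k+1} = A_k + z_k A_{k-1}`, of three consecutive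
`z_k` not all are near `1`); those of `e(θ m)` are small unless the frequency
`∑ h_j f_j'(N) / q` is close to an integer, which happens for few blocks (mean value theorem). The
joint covering criterion `crit_scaledJ` of the starting library does the rest. -/

namespace Pool.Agent.Results.MP_926cc3_nt.SmoothFunctionsZeckendorf

open Filter Topology

theorem result (G : Type) [AddCommGroup G] [Finite G] (v : ℕ → G) (w : ℕ)
    (hgen : ∀ k, AddSubgroup.closure {g : G | ∃ i, k ≤ i ∧ i < k + w ∧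
      g = v (i + 2) - v (i + 1) - v i} = ⊤)
    (r : ℕ) (hr : 1 ≤ r) (c : Fin r → ℝ) (hc1 : ∀ j, 1 ≤ c j) (hc2 : ∀ j, c j < 2)
    (hc : Function.Injective c) (f : Fin r → ℝ → ℝ)
    (hf1 : ∀ j, ∀ᶠ t : ℝ in atTop, DifferentiableAt ℝ (f j) t ∧ DifferentiableAt ℝ (deriv (f j)) t)
    (hf2 : ∀ j, ∀ σ : ℝ, 0 < σ → ∀ᶠ t : ℝ in atTop,
      t ^ (c j - 2 - σ) ≤ |deriv (deriv (f j)) t| ∧ |deriv (deriv (f j)) t| ≤ t ^ (c j - 2 + σ))
    (τ : ℝ) (hτ : 0 < τ) (hf3 : ∀ j, ∀ᶠ t : ℝ in atTop, t ^ τ ≤ f j t)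
    (ε : ℝ) (hε : 0 < ε) :
    ∃ κ : ℝ, 0 < κ ∧ ∃ X₀ : ℝ, ∀ X : ℝ, X₀ ≤ X → ∀ g : G,
      X ^ (1 - ε) ≤ ({n : ℕ | ((Nat.zeckendorf n).map v).sum = g ∧ (n : ℝ) ≤ X ∧
        ∀ j, ∀ q : ℕ, q.Prime →
        κ * (Real.log X * (Real.log (Real.log X)) ^ 2 *
          Real.log (Real.log (Real.log (Real.log X))) / (Real.log (Real.log (Real.log X))) ^ 2) <
            |(q : ℝ) - f j n|}.ncard : ℝ) := by
  classical
  have : Fintype G := Fintype.ofFinite G
  obtain ⟨κ, hκ, h⟩ := Pool.Agent.U602.AB.family_smooth (Pool.Agent.U602.ZK.fz v)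
    (Pool.Agent.U602.ZK.blocks_zk v w hgen) r hr c hc1 hc2 hc f (fun j => deriv (f j))
    (fun j => deriv (deriv (f j)))
    (fun j => (hf1 j).mono fun t ht => ht.1.hasDerivAt)
    (fun j => (hf1 j).mono fun t ht => ht.2.hasDerivAt) hf2 τ hτ hf3 ε hε
  obtain ⟨X₀, hX₀⟩ := eventually_atTop.1 h
  refine ⟨κ, hκ, max X₀ 0, fun X hX g => ?_⟩
  have h1 := hX₀ X ((le_max_left _ _).trans hX) g
  have hX0 : 0 ≤ X := (le_max_right _ _).trans hX
  refine h1.trans (le_of_eq ?_)
  rw [← Set.ncard_coe_finset]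
  congr 2
  ext n
  simp only [Finset.coe_filter, Finset.mem_range, Set.mem_ofPred_eq, Nat.lt_succ_iff,
    Nat.le_floor_iff hX0]
  constructor
  · rintro ⟨h2, h3, h4⟩
    exact ⟨h3, h2, h4⟩
  · rintro ⟨h2, h3, h4⟩
    exact ⟨h3, h2, h4⟩

end Pool.Agent.Results.MP_926cc3_nt.SmoothFunctionsZeckendorf
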